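import Mathlib

/-!
The real closure of a finite permutation group equals its strong 2-closure, the only exception
being the trivial group on two points.
-/

namespace Pool.Agent.Results.MP_5a426c_al.RealClosure

universe u

/-- The linear extension of a permutation `σ` to the real permutation module, the free real
vector space with basis `Ω`: it sends the basis vector of `x` to the basis vector of `σ x`. -/
noncomputable def ext {Ω : Type u} (σ : Equiv.Perm Ω) : (Ω →₀ ℝ) →ₗ[ℝ] (Ω →₀ ℝ) :=
  Finsupp.lmapDomain ℝ ℝ σ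

/-- `W` is an `ℝG`-submodule of the permutation module: a subspace invariant under `G`. -/
def IsInvariant {Ω : Type u} (G : Subgroup (Equiv.Perm Ω)) (W : Submodule ℝ (Ω →₀ ℝ)) : Prop :=
  ∀ g ∈ G, ∀ v ∈ W, ext g v ∈ W

/-- The real closure of `G`: the permutations whose linear extension maps every
`ℝG`-submodule of the permutation module onto itself. -/
def realClosure {Ω : Type u} (G : Subgroup (Equiv.Perm Ω)) : Set (Equiv.Perm Ω) :=
  {σ | ∀ W : Submodule ℝ (Ω →₀ ℝ), IsInvariant G W → W.map (ext σ) = W}

/-- The `G`-orbit of a finite subset `s` of `Ω`. -/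
def setOrbit {Ω : Type u} (G : Subgroup (Equiv.Perm Ω)) (s : Finset Ω) : Set (Finset Ω) :=
  {t | ∃ g ∈ G, t = s.map g.toEmbedding}

/-- The strong 2-closure of `G`: the permutations that map each `G`-orbit on the set of
2-element subsets of `Ω` onto itself. -/
def strongTwoClosure {Ω : Type u} (G : Subgroup (Equiv.Perm Ω)) : Set (Equiv.Perm Ω) :=
  {σ | ∀ s : Finset Ω, s.card = 2 →
    (fun t : Finset Ω => t.map σ.toEmbedding) '' setOrbit G s = setOrbit G s}

section Aux

variable {Ω : Type u} [Fintype Ω] [DecidableEq Ω]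

set_option linter.unusedSectionVars false

/-- The permutation operator on Euclidean space. -/
noncomputable def P (σ : Equiv.Perm Ω) : EuclideanSpace ℝ Ω →ₗ[ℝ] EuclideanSpace ℝ Ω where
  toFun f := WithLp.toLp 2 (fun x => f (σ.symm x))
  map_add' f g := by ext x; simp
  map_smul' c f := by ext x; simp

lemma P_apply (σ : Equiv.Perm Ω) (f : EuclideanSpace ℝ Ω) (x : Ω) :
    P σ f x = f (σ.symm x) := rfl

/-- The identification of the permutation module with Euclidean space. -/
noncomputable def Phi : (Ω →₀ ℝ) ≃ₗ[ℝ] EuclideanSpace ℝ Ω :=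
  (Finsupp.linearEquivFunOnFinite ℝ ℝ Ω).trans (WithLp.linearEquiv 2 ℝ (Ω → ℝ)).symm

lemma Phi_apply (v : Ω →₀ ℝ) (x : Ω) : (Phi v : EuclideanSpace ℝ Ω) x = v x := rfl

lemma Phi_ext (σ : Equiv.Perm Ω) (v : Ω →₀ ℝ) : Phi (ext σ v) = P σ (Phi v) := by
  ext x
  rw [Phi_apply, P_apply, Phi_apply, ext, Finsupp.lmapDomain_apply]
  exact Finsupp.mapDomain_equiv_apply v x

lemma P_mul (σ τ : Equiv.Perm Ω) (f : EuclideanSpace ℝ Ω) : P (σ * τ) f = P σ (P τ f) := by
  ext x; rfl

lemma P_one (f : EuclideanSpace ℝ Ω) : P (1 : Equiv.Perm Ω) f = f := by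
  ext x; rfl

lemma P_single (σ : Equiv.Perm Ω) (x : Ω) :
    P σ (EuclideanSpace.single x (1 : ℝ)) = EuclideanSpace.single (σ x) (1 : ℝ) := by
  ext y
  rw [P_apply, PiLp.single_apply, PiLp.single_apply]
  by_cases h : y = σ x
  · subst h; simp
  · have : σ.symm y ≠ x := by
      intro h'; apply h; rw [← h']; simp
    simp [h, this]

lemma inner_P (σ : Equiv.Perm Ω) (f g : EuclideanSpace ℝ Ω) :
    inner ℝ (P σ f) (P σ g) = inner ℝ f g := by
  rw [PiLp.inner_apply, PiLp.inner_apply]
  exact Equiv.sum_comp σ.symm (fun x => inner ℝ (f x) (g x))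

/-- A permutation of the strong 2-closure maps a pair of distinct points to an image of the
pair under the group. -/
lemma strong_pair {G : Subgroup (Equiv.Perm Ω)} {σ : Equiv.Perm Ω}
    (hσ : σ ∈ strongTwoClosure G) {x y : Ω} (hxy : x ≠ y) :
    ∃ g ∈ G, (σ x = g x ∧ σ y = g y) ∨ (σ x = g y ∧ σ y = g x) := by
  have h := hσ ({x, y} : Finset Ω) (Finset.card_pair hxy)
  have hmem : ({x, y} : Finset Ω).map σ.toEmbedding ∈ setOrbit G ({x, y} : Finset Ω) := by
    rw [← h]
    exact ⟨_, ⟨1, G.one_mem, by ext z; simp⟩, rfl⟩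
  obtain ⟨g, hg, he⟩ := hmem
  refine ⟨g, hg, ?_⟩
  have h1 : ({σ x, σ y} : Finset Ω) = {g x, g y} := by
    simpa [Finset.map_insert, Finset.map_singleton] using he
  have hx : σ x ∈ ({g x, g y} : Finset Ω) := by rw [← h1]; simp
  have hy : σ y ∈ ({g x, g y} : Finset Ω) := by rw [← h1]; simp
  have hne : σ x ≠ σ y := fun h' => hxy (σ.injective h')
  simp only [Finset.mem_insert, Finset.mem_singleton] at hx hy
  rcases hx with hx | hx <;> rcases hy with hy | hy
  · exact absurd (hx.trans hy.symm) hne
  · exact Or.inl ⟨hx, hy⟩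
  · exact Or.inr ⟨hx, hy⟩
  · exact absurd (hx.trans hy.symm) hne

/-- Apart from the trivial group on two points, the strong 2-closure preserves the orbits on
points. -/
lemma strong_point {G : Subgroup (Equiv.Perm Ω)} (hG : ¬ (Nat.card Ω = 2 ∧ G = ⊥))
    {σ : Equiv.Perm Ω} (hσ : σ ∈ strongTwoClosure G) (x : Ω) : ∃ g ∈ G, σ x = g x := by
  by_contra hx
  push Not at hx
  apply hG
  -- every other point is moved to `σ x` by the group, and mapped to `x` by `σ`
  have key : ∀ y, y ≠ x → ∃ g ∈ G, σ x = g y ∧ σ y = g x := by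
    intro y hy
    obtain ⟨g, hg, h | h⟩ := strong_pair hσ (Ne.symm hy)
    · exact absurd h.1 (hx g hg)
    · exact ⟨g, hg, h⟩
  -- the orbit of `x` is `{x}`
  have fixx : ∀ g ∈ G, g x = x := by
    intro g hg
    by_contra hne
    obtain ⟨k, hk, h1, -⟩ := key (g x) hne
    exact hx (k * g) (G.mul_mem hk hg) (by simpa using h1)
  have hσx : σ x ≠ x := by
    intro h
    exact hx 1 G.one_mem (by simpa using h)
  have all : ∀ y, y ≠ x → y = σ x := by
    intro y hy
    obtain ⟨g, hg, h1, h2⟩ := key y hy
    obtain ⟨g', hg', h1', h2'⟩ := key (σ x) hσx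
    rw [fixx g hg] at h2
    rw [fixx g' hg'] at h2'
    exact σ.injective (h2.trans h2'.symm)
  constructor
  · have : (Finset.univ : Finset Ω) = {x, σ x} := by
      ext y
      simp only [Finset.mem_univ, Finset.mem_insert, Finset.mem_singleton, true_iff]
      by_cases h : y = x
      · exact Or.inl h
      · exact Or.inr (all y h)
    rw [Nat.card_eq_fintype_card, ← Finset.card_univ, this, Finset.card_pair hσx.symm]
  · rw [eq_bot_iff]
    intro g hg
    rw [Subgroup.mem_bot]
    ext y
    by_cases h : y = x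
    · rw [h, fixx g hg]; rfl
    · have h1 : g y ≠ x := by
        intro h2
        apply h
        exact g.injective (h2.trans (fixx g hg).symm)
      rw [all _ h1, all y h]; rfl

/-- The strong 2-closure is contained in the real closure, apart from the exception. -/
lemma strong_le_real {G : Subgroup (Equiv.Perm Ω)} (hG : ¬ (Nat.card Ω = 2 ∧ G = ⊥))
    {σ : Equiv.Perm Ω} (hσ : σ ∈ strongTwoClosure G) (W : Submodule ℝ (Ω →₀ ℝ))
    (hW : IsInvariant G W) : W.map (ext σ) ≤ W := by
  classical
  set K : Submodule ℝ (EuclideanSpace ℝ Ω) := W.map Phi.toLinearMap with hK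
  have memK : ∀ v : Ω →₀ ℝ, Phi v ∈ K ↔ v ∈ W := by
    intro v
    constructor
    · rintro ⟨w, hw, he⟩
      have : w = v := Phi.injective he
      exact this ▸ hw
    · intro hv
      exact ⟨v, hv, rfl⟩
  have invK : ∀ g ∈ G, ∀ f ∈ K, P g f ∈ K := by
    rintro g hg f ⟨w, hw, rfl⟩
    have := (memK _).2 (hW g hg w hw)
    rw [Phi_ext] at this
    exact this
  -- the orthogonal projection commutes with the group
  have comm : ∀ g ∈ G, ∀ f, K.starProjection (P g f) = P g (K.starProjection f) := by
    intro g hg f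
    apply Submodule.eq_starProjection_of_mem_of_inner_eq_zero
    · exact invK g hg _ (Submodule.starProjection_apply_mem K f)
    · intro w hw
      have hw' : P g⁻¹ w ∈ K := invK _ (G.inv_mem hg) w hw
      have e1 : P g f - P g (K.starProjection f) = P g (f - K.starProjection f) := by
        rw [map_sub]
      have e2 : w = P g (P g⁻¹ w) := by
        rw [← P_mul, mul_inv_cancel, P_one]
      rw [e1, e2, inner_P]
      exact Submodule.starProjection_inner_eq_zero f _ hw'
  -- the matrix of the projection is symmetric and constant on orbits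
  have symm : ∀ f g, inner ℝ (K.starProjection f) g = inner ℝ f (K.starProjection g) :=
    fun f g => K.inner_starProjection_left_eq_right f g
  set e : Ω → Ω → ℝ := fun x y => inner ℝ (K.starProjection (EuclideanSpace.single x (1 : ℝ)))
    (EuclideanSpace.single y (1 : ℝ)) with he
  have eG : ∀ g ∈ G, ∀ x y, e (g x) (g y) = e x y := by
    intro g hg x y
    simp only [he]
    rw [← P_single, ← P_single, comm g hg, inner_P]
  have eS : ∀ x y, e x y = e y x := by
    intro x y
    simp only [he]
    rw [symm, real_inner_comm]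
  have eσ : ∀ x y, e (σ x) (σ y) = e x y := by
    intro x y
    by_cases hxy : x = y
    · subst hxy
      obtain ⟨g, hg, h⟩ := strong_point hG hσ x
      rw [h, eG g hg]
    · obtain ⟨g, hg, h | h⟩ := strong_pair hσ hxy
      · rw [h.1, h.2, eG g hg]
      · rw [h.1, h.2, eG g hg, eS]
  -- hence the projection commutes with `σ`
  have basis_ext : ∀ f g : EuclideanSpace ℝ Ω,
      (∀ y, inner ℝ f (EuclideanSpace.single y (1 : ℝ))
        = inner ℝ g (EuclideanSpace.single y (1 : ℝ))) → f = g := by
    intro f g h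
    ext y
    have := h y
    rw [EuclideanSpace.inner_single_right, EuclideanSpace.inner_single_right] at this
    simpa using this
  have commσ1 : ∀ x, K.starProjection (P σ (EuclideanSpace.single x (1 : ℝ)))
      = P σ (K.starProjection (EuclideanSpace.single x (1 : ℝ))) := by
    intro x
    apply basis_ext
    intro y
    have hy : (EuclideanSpace.single y (1 : ℝ) : EuclideanSpace ℝ Ω)
        = P σ (EuclideanSpace.single (σ.symm y) (1 : ℝ)) := by
      rw [P_single, Equiv.apply_symm_apply]
    rw [hy, inner_P, P_single, P_single]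
    exact eσ x (σ.symm y)
  have commσ : ∀ f, K.starProjection (P σ f) = P σ (K.starProjection f) := by
    intro f
    have hf : f = ∑ x, f x • (EuclideanSpace.single x (1 : ℝ) : EuclideanSpace ℝ Ω) := by
      ext y
      simp [Pi.single_apply]
    rw [hf]
    simp only [map_sum, map_smul, commσ1]
  rintro _ ⟨w, hw, rfl⟩
  rw [← memK, Phi_ext]
  have h1 : K.starProjection (Phi w) = Phi w :=
    Submodule.starProjection_eq_self_iff.2 ((memK w).2 hw)
  have h2 := commσ (Phi w)
  rw [h1] at h2
  exact Submodule.starProjection_eq_self_iff.1 h2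

/-- The real closure is contained in the strong 2-closure. -/
lemma real_pair {G : Subgroup (Equiv.Perm Ω)} {σ : Equiv.Perm Ω} (hσ : σ ∈ realClosure G)
    (s t : Finset Ω) (hs : s.card = 2) (ht : t ∈ setOrbit G s) :
    t.map σ.toEmbedding ∈ setOrbit G s := by
  classical
  -- the symmetric adjacency matrix of the orbit
  set a : Ω → Ω → ℝ := fun x y => if x ≠ y ∧ ({x, y} : Finset Ω) ∈ setOrbit G s then 1 else 0
    with ha
  have aS : ∀ x y, a x y = a y x := by
    intro x y
    have h1 : (x ≠ y ∧ ({x, y} : Finset Ω) ∈ setOrbit G s)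
        ↔ (y ≠ x ∧ ({y, x} : Finset Ω) ∈ setOrbit G s) := by
      rw [Finset.pair_comm x y, ne_comm]
    simp only [ha]
    by_cases h : x ≠ y ∧ ({x, y} : Finset Ω) ∈ setOrbit G s
    · rw [if_pos h, if_pos (h1.1 h)]
    · rw [if_neg h, if_neg (fun h' => h (h1.2 h'))]
  have aG : ∀ g ∈ G, ∀ x y, a (g x) (g y) = a x y := by
    intro g hg x y
    have h1 : (g x ≠ g y ∧ ({g x, g y} : Finset Ω) ∈ setOrbit G s)
        ↔ (x ≠ y ∧ ({x, y} : Finset Ω) ∈ setOrbit G s) := by
      constructor
      · rintro ⟨h, k, hk, he⟩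
        refine ⟨fun h' => h (by rw [h']), g⁻¹ * k, G.mul_mem (G.inv_mem hg) hk, ?_⟩
        have e2 : s.map (g⁻¹ * k).toEmbedding
            = (s.map k.toEmbedding).map (g⁻¹ : Equiv.Perm Ω).toEmbedding := by
          rw [Finset.map_map]; rfl
        rw [e2, ← he]
        simp [Finset.map_insert]
      · rintro ⟨h, k, hk, he⟩
        refine ⟨fun h' => h (g.injective h'), g * k, G.mul_mem hg hk, ?_⟩
        have e2 : s.map (g * k).toEmbedding
            = (s.map k.toEmbedding).map g.toEmbedding := by
          rw [Finset.map_map]; rfl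
        rw [e2, ← he]
        simp [Finset.map_insert]
    simp only [ha]
    by_cases h : x ≠ y ∧ ({x, y} : Finset Ω) ∈ setOrbit G s
    · rw [if_pos (h1.2 h), if_pos h]
    · rw [if_neg (fun h' => h (h1.1 h')), if_neg h]
  -- the corresponding operator
  let A : EuclideanSpace ℝ Ω →ₗ[ℝ] EuclideanSpace ℝ Ω :=
    { toFun := fun f => WithLp.toLp 2 (fun x => ∑ y, a x y * f y)
      map_add' := by
        intro f g; ext x
        simp [mul_add, Finset.sum_add_distrib]
      map_smul' := by
        intro c f; ext x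
        simp only [PiLp.smul_apply, smul_eq_mul, RingHom.id_apply, Finset.mul_sum]
        exact Finset.sum_congr rfl (fun y _ => by ring) }
  have A_apply : ∀ f x, A f x = ∑ y, a x y * f y := fun f x => rfl
  have Asymm : A.IsSymmetric := by
    intro f g
    rw [PiLp.inner_apply, PiLp.inner_apply]
    simp only [A_apply, RCLike.inner_apply, conj_trivial, Finset.sum_mul, Finset.mul_sum]
    rw [Finset.sum_comm]
    refine Finset.sum_congr rfl (fun x _ => Finset.sum_congr rfl (fun y _ => ?_))
    rw [aS y x]; ring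
  have AG : ∀ g ∈ G, ∀ f, A (P g f) = P g (A f) := by
    intro g hg f
    ext x
    rw [A_apply, P_apply, A_apply]
    rw [← Equiv.sum_comp g]
    refine Finset.sum_congr rfl (fun y _ => ?_)
    rw [P_apply, Equiv.symm_apply_apply, ← aG g hg (g.symm x) y, Equiv.apply_symm_apply]
  -- `σ` preserves the eigenspaces
  have eig : ∀ (μ : ℝ) (f : EuclideanSpace ℝ Ω), A f = μ • f → A (P σ f) = μ • P σ f := by
    intro μ f hf
    let W : Submodule ℝ (Ω →₀ ℝ) := (Module.End.eigenspace A μ).comap Phi.toLinearMap
    have memW : ∀ v : Ω →₀ ℝ, v ∈ W ↔ A (Phi v) = μ • Phi v := by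
      intro v
      exact Module.End.mem_eigenspace_iff
    have hinv : IsInvariant G W := by
      intro g hg v hv
      rw [memW] at hv ⊢
      rw [Phi_ext, AG g hg, hv, map_smul]
    have hW := hσ W hinv
    have h1 : ext σ (Phi.symm f) ∈ W := by
      rw [← hW]
      refine ⟨Phi.symm f, ?_, rfl⟩
      change Phi.symm f ∈ W
      rw [memW, LinearEquiv.apply_symm_apply]
      exact hf
    rw [memW, Phi_ext, LinearEquiv.apply_symm_apply] at h1
    exact h1
  -- hence `σ` commutes with `A`
  have commA : ∀ f, A (P σ f) = P σ (A f) := by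
    have htop : (⨆ μ : ℝ, Module.End.eigenspace A μ) = ⊤ := by
      rw [← Submodule.orthogonal_eq_bot_iff]
      exact Asymm.orthogonalComplement_iSup_eigenspaces_eq_bot
    have hle : (⨆ μ : ℝ, Module.End.eigenspace A μ)
        ≤ LinearMap.ker (A ∘ₗ P σ - P σ ∘ₗ A) := by
      apply iSup_le
      intro μ f hf
      rw [Module.End.mem_eigenspace_iff] at hf
      rw [LinearMap.mem_ker, LinearMap.sub_apply, LinearMap.comp_apply, LinearMap.comp_apply,
        eig μ f hf, hf, map_smul, sub_self]
    intro f
    have : f ∈ LinearMap.ker (A ∘ₗ P σ - P σ ∘ₗ A) := by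
      apply hle
      rw [htop]
      exact Submodule.mem_top
    rw [LinearMap.mem_ker, LinearMap.sub_apply, LinearMap.comp_apply, LinearMap.comp_apply,
      sub_eq_zero] at this
    exact this
  have aσ : ∀ x y, a (σ x) (σ y) = a x y := by
    intro x y
    have h := congrArg (fun f : EuclideanSpace ℝ Ω => f (σ x))
      (commA (EuclideanSpace.single y (1 : ℝ)))
    simp only [P_single, A_apply, P_apply, Equiv.symm_apply_apply, PiLp.single_apply] at h
    simpa using h
  -- conclusion
  obtain ⟨g, hg, rfl⟩ := ht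
  obtain ⟨x, y, hxy, rfl⟩ := Finset.card_eq_two.1 hs
  have hne : g x ≠ g y := fun h => hxy (g.injective h)
  have h1 : a (g x) (g y) = 1 := by
    simp only [ha]
    rw [if_pos]
    exact ⟨hne, g, hg, by simp [Finset.map_insert]⟩
  have h2 : a (σ (g x)) (σ (g y)) = 1 := by rw [aσ, h1]
  have h3 : (σ (g x) ≠ σ (g y) ∧ ({σ (g x), σ (g y)} : Finset Ω) ∈ setOrbit G {x, y}) := by
    by_contra hcon
    simp only [ha] at h2
    rw [if_neg hcon] at h2
    exact zero_ne_one h2
  have h4 : (({x, y} : Finset Ω).map g.toEmbedding).map σ.toEmbedding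
      = {σ (g x), σ (g y)} := by
    simp [Finset.map_insert]
  rw [h4]
  exact h3.2

/-- The inverse of a member of the real closure lies in it. -/
lemma real_symm {G : Subgroup (Equiv.Perm Ω)} {σ : Equiv.Perm Ω} (hσ : σ ∈ realClosure G) :
    σ.symm ∈ realClosure G := by
  intro W hW
  have h := hσ W hW
  conv_lhs => rw [← h]
  rw [← Submodule.map_comp]
  have : (ext σ.symm) ∘ₗ (ext σ) = LinearMap.id := by
    apply Finsupp.lhom_ext
    intro x c
    simp [ext, Finsupp.mapDomain_single]
  rw [this, Submodule.map_id]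

/-- The inverse of a member of the strong 2-closure lies in it. -/
lemma strong_symm {G : Subgroup (Equiv.Perm Ω)} {σ : Equiv.Perm Ω}
    (hσ : σ ∈ strongTwoClosure G) : σ.symm ∈ strongTwoClosure G := by
  intro s hs
  have h := hσ s hs
  have h2 : (fun t : Finset Ω => t.map σ.symm.toEmbedding) ''
      ((fun t : Finset Ω => t.map σ.toEmbedding) '' setOrbit G s) = setOrbit G s := by
    rw [← Set.image_comp]
    have : ((fun t : Finset Ω => t.map σ.symm.toEmbedding) ∘
        (fun t : Finset Ω => t.map σ.toEmbedding)) = id := by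
      funext t
      simp only [Function.comp, Finset.map_map, id]
      have e : σ.toEmbedding.trans σ.symm.toEmbedding = Function.Embedding.refl Ω := by
        ext x; simp
      rw [e, Finset.map_refl]
    rw [this, Set.image_id]
  rw [h] at h2
  exact h2

end Aux

/-- The exceptional case. -/
lemma exception {Ω : Type u} [Fintype Ω] [DecidableEq Ω] (h2 : Nat.card Ω = 2) :
    realClosure (⊥ : Subgroup (Equiv.Perm Ω)) ≠ strongTwoClosure ⊥ := by
  rw [Nat.card_eq_fintype_card, ← Finset.card_univ] at h2
  obtain ⟨x, y, hxy, hu⟩ := Finset.card_eq_two.1 h2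
  intro h
  have hs : Equiv.swap x y ∈ strongTwoClosure (⊥ : Subgroup (Equiv.Perm Ω)) := by
    intro s hs
    have hsu : s = Finset.univ := by
      apply Finset.eq_univ_of_card
      rw [hs, ← Finset.card_univ, h2]
    have horb : setOrbit (⊥ : Subgroup (Equiv.Perm Ω)) s = {Finset.univ} := by
      ext t
      constructor
      · rintro ⟨g, -, rfl⟩
        rw [hsu]
        simp
      · rintro rfl
        exact ⟨1, Subgroup.one_mem _, by rw [hsu]; simp⟩
    rw [horb]
    simp
  rw [← h] at hs
  -- the line spanned by the basis vector of `x` is not preserved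
  have hinv : IsInvariant (⊥ : Subgroup (Equiv.Perm Ω))
      (Submodule.span ℝ {Finsupp.single x (1 : ℝ)}) := by
    intro g hg v hv
    rw [Subgroup.mem_bot] at hg
    subst hg
    have : (ext (1 : Equiv.Perm Ω) : (Ω →₀ ℝ) →ₗ[ℝ] (Ω →₀ ℝ)) = LinearMap.id := by
      apply Finsupp.lhom_ext
      intro x c
      simp [ext, Finsupp.mapDomain_single]
    rw [this]
    exact hv
  have h3 := hs _ hinv
  have h4 : Finsupp.single y (1 : ℝ) ∈ Submodule.span ℝ {Finsupp.single x (1 : ℝ)} := by
    rw [← h3]
    refine ⟨Finsupp.single x (1 : ℝ), Submodule.mem_span_singleton_self _, ?_⟩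
    simp [ext, Finsupp.mapDomain_single]
  rw [Submodule.mem_span_singleton] at h4
  obtain ⟨c, hc⟩ := h4
  have h5 := congrArg (fun f : Ω →₀ ℝ => f y) hc
  simp [Finsupp.single_apply, hxy] at h5

/-- For every permutation group `G` on a finite set `Ω`, the real closure of `G` equals its strong
2-closure, with one exception: the trivial group on a set of two points. -/
theorem result (Ω : Type u) [Finite Ω] (G : Subgroup (Equiv.Perm Ω)) :
    realClosure G = strongTwoClosure G ↔ ¬ (Nat.card Ω = 2 ∧ G = ⊥) := by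
  classical
  haveI : Fintype Ω := Fintype.ofFinite Ω
  constructor
  · rintro h ⟨h2, rfl⟩
    exact exception h2 h
  · intro hG
    apply Set.Subset.antisymm
    · intro σ hσ s hs
      apply Set.Subset.antisymm
      · rintro _ ⟨t, ht, rfl⟩
        exact real_pair hσ s t hs ht
      · intro t ht
        refine ⟨t.map σ.symm.toEmbedding, real_pair (real_symm hσ) s t hs ht, ?_⟩
        simp only [Finset.map_map]
        have e : σ.symm.toEmbedding.trans σ.toEmbedding = Function.Embedding.refl Ω := by
          ext x; simp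
        rw [e, Finset.map_refl]
    · intro σ hσ W hW
      apply le_antisymm (strong_le_real hG hσ W hW)
      intro v hv
      have h1 : ext σ.symm v ∈ W := strong_le_real hG (strong_symm hσ) W hW ⟨v, hv, rfl⟩
      refine ⟨ext σ.symm v, h1, ?_⟩
      have : (ext σ) ∘ₗ (ext σ.symm) = LinearMap.id := by
        apply Finsupp.lhom_ext
        intro x c
        simp [ext, Finsupp.mapDomain_single]
      exact congrArg (fun f : (Ω →₀ ℝ) →ₗ[ℝ] (Ω →₀ ℝ) => f v) this

end Pool.Agent.Results.MP_5a426c_al.RealClosure
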